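import Pool.Agent.Helper89.HY.St3

/-!
# HY3, module CHB: the chessboard estimate
-/

set_option autoImplicit false

noncomputable section

namespace Pool.Agent.Helper1.HY

open Finset
open Pool.Agent.Helper89.HY

variable {G ι : Type} [Group G]

open Classical in
private def DD (s : Finset ι) (z : ι → G) (g0 g1 g2 g3 g4 g5 : G) : ℕ :=
  (((s ×ˢ s ×ˢ s) ×ˢ (s ×ˢ s ×ˢ s)).filter fun q : (ι × ι × ι) × (ι × ι × ι) =>
    (z q.1.1)⁻¹ * g0 * z q.1.2.1 * g1 * (z q.1.2.2)⁻¹ * g2 * z q.2.1 * g3 * (z q.2.2.1)⁻¹ * g4 *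
      z q.2.2.2 * g5 = 1).card

private theorem FF_eq (s : Finset ι) (z : ι → G) (g : Fin 6 → G) :
    FF s z g = DD s z (g 0) (g 1) (g 2) (g 3) (g 4) (g 5) := by
  classical
  unfold FF DD
  apply Finset.card_nbij' (fun i : Fin 6 → ι => ((i 0, i 1, i 2), (i 3, i 4, i 5)))
    (fun q => ![q.1.1, q.1.2.1, q.1.2.2, q.2.1, q.2.2.1, q.2.2.2])
  · intro i hi
    simp only [coe_filter, Fintype.mem_piFinset, Set.mem_setOf_eq, mem_product] at hi ⊢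
    exact ⟨⟨⟨hi.1 0, hi.1 1, hi.1 2⟩, hi.1 3, hi.1 4, hi.1 5⟩, hi.2⟩
  · intro q hq
    simp only [coe_filter, Fintype.mem_piFinset, Set.mem_setOf_eq, mem_product] at hq ⊢
    obtain ⟨⟨⟨h0, h1, h2⟩, h3, h4, h5⟩, h6⟩ := hq
    refine ⟨?_, h6⟩
    intro i
    fin_cases i
    · exact h0
    · exact h1
    · exact h2
    · exact h3
    · exact h4
    · exact h5
  · intro i _
    funext j
    fin_cases j <;> rfl
  · intro q _
    rfl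

private theorem shift (s : Finset ι) (z : ι → G) (g0 g1 g2 g3 g4 g5 : G) :
    DD s z g0 g1 g2 g3 g4 g5 = DD s z g2 g3 g4 g5 g0 g1 := by
  classical
  unfold DD
  apply Finset.card_nbij' (fun q : (ι × ι × ι) × (ι × ι × ι) =>
      ((q.1.2.2, q.2.1, q.2.2.1), (q.2.2.2, q.1.1, q.1.2.1)))
    (fun q : (ι × ι × ι) × (ι × ι × ι) => ((q.2.2.1, q.2.2.2, q.1.1), (q.1.2.1, q.1.2.2, q.2.1)))
  · intro q hq
    simp only [coe_filter, Set.mem_setOf_eq, mem_product] at hq ⊢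
    obtain ⟨⟨⟨h0, h1, h2⟩, h3, h4, h5⟩, h6⟩ := hq
    refine ⟨⟨⟨h2, h3, h4⟩, h5, h0, h1⟩, ?_⟩
    have e : (z q.1.2.2)⁻¹ * g2 * z q.2.1 * g3 * (z q.2.2.1)⁻¹ * g4 * z q.2.2.2 * g5 * (z q.1.1)⁻¹ *
        g0 * z q.1.2.1 * g1 = ((z q.1.1)⁻¹ * g0 * z q.1.2.1 * g1)⁻¹ *
        ((z q.1.1)⁻¹ * g0 * z q.1.2.1 * g1 * (z q.1.2.2)⁻¹ * g2 * z q.2.1 * g3 * (z q.2.2.1)⁻¹ * g4 *
          z q.2.2.2 * g5) * ((z q.1.1)⁻¹ * g0 * z q.1.2.1 * g1) := by group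
    rw [e, h6]
    group
  · intro q hq
    simp only [coe_filter, Set.mem_setOf_eq, mem_product] at hq ⊢
    obtain ⟨⟨⟨h0, h1, h2⟩, h3, h4, h5⟩, h6⟩ := hq
    refine ⟨⟨⟨h4, h5, h0⟩, h1, h2, h3⟩, ?_⟩
    have e : (z q.2.2.1)⁻¹ * g0 * z q.2.2.2 * g1 * (z q.1.1)⁻¹ * g2 * z q.1.2.1 * g3 * (z q.1.2.2)⁻¹ *
        g4 * z q.2.1 * g5 = ((z q.2.2.1)⁻¹ * g0 * z q.2.2.2 * g1) *
        ((z q.1.1)⁻¹ * g2 * z q.1.2.1 * g3 * (z q.1.2.2)⁻¹ * g4 * z q.2.1 * g5 * (z q.2.2.1)⁻¹ * g0 *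
          z q.2.2.2 * g1) * ((z q.2.2.1)⁻¹ * g0 * z q.2.2.2 * g1)⁻¹ := by group
    rw [e, h6]
    group
  · intro q _
    rfl
  · intro q _
    rfl

open Classical in
private theorem fib {α β : Type} (A : Finset α) (B : Finset β) (f : α → G) (h : β → G) (T : Finset G)
    (hT : ∀ a ∈ A, f a ∈ T) : ((A ×ˢ B).filter (fun q : α × β => f q.1 = h q.2)).card =
      ∑ x ∈ T, (A.filter (fun a => f a = x)).card * (B.filter (fun b => h b = x)).card := by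
  rw [Finset.card_eq_sum_card_fiberwise (f := fun q : α × β => f q.1) (t := T)]
  · refine Finset.sum_congr rfl fun x _ => ?_
    rw [← card_product]
    congr 1
    ext q
    simp only [mem_filter, mem_product]
    constructor
    · rintro ⟨⟨⟨h1, h2⟩, h3⟩, h4⟩
      exact ⟨⟨h1, h4⟩, h2, by rw [← h3, h4]⟩
    · rintro ⟨⟨h1, h4⟩, h2, h3⟩
      exact ⟨⟨⟨h1, h2⟩, by rw [h4, h3]⟩, h4⟩
  · intro q hq
    simp only [coe_filter, Set.mem_setOf_eq, mem_product] at hq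
    exact hT _ hq.1.1

open Classical in
private theorem cs {α β : Type} (A : Finset α) (B : Finset β) (f : α → G) (h : β → G) :
    ((A ×ˢ B).filter (fun q : α × β => f q.1 = h q.2)).card ^ 2 ≤
      ((A ×ˢ A).filter (fun q : α × α => f q.1 = f q.2)).card *
        ((B ×ˢ B).filter (fun q : β × β => h q.1 = h q.2)).card := by
  have hf : ∀ a ∈ A, f a ∈ A.image f ∪ B.image h := fun a ha =>
    mem_union_left _ (mem_image_of_mem f ha)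
  have hh : ∀ b ∈ B, h b ∈ A.image f ∪ B.image h := fun b hb =>
    mem_union_right _ (mem_image_of_mem h hb)
  rw [fib A B f h _ hf, fib A A f f _ hf, fib B B h h _ hh]
  have := Finset.sum_mul_sq_le_sq_mul_sq (A.image f ∪ B.image h)
    (fun x => (A.filter (fun a => f a = x)).card) (fun x => (B.filter (fun b => h b = x)).card)
  simp only [pow_two] at this ⊢
  exact this

private theorem main (s : Finset ι) (z : ι → G) (g0 g1 g2 g3 g4 g5 : G) :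
    DD s z g0 g1 g2 g3 g4 g5 ^ 2 ≤ DD s z g0 g1 1 g1⁻¹ g0⁻¹ 1 * DD s z 1 g3 g4 1 g4⁻¹ g3⁻¹ := by
  classical
  obtain ⟨f, hf⟩ : ∃ f : ι × ι × ι → G, f = fun a => (z a.1)⁻¹ * g0 * z a.2.1 * g1 * (z a.2.2)⁻¹ :=
    ⟨_, rfl⟩
  obtain ⟨h, hh⟩ : ∃ h : ι × ι × ι → G,
    h = fun a => (g2 * z a.1 * g3 * (z a.2.1)⁻¹ * g4 * z a.2.2 * g5)⁻¹ := ⟨_, rfl⟩
  have h0 := cs (s ×ˢ s ×ˢ s) (s ×ˢ s ×ˢ s) f h
  have e0 : (((s ×ˢ s ×ˢ s) ×ˢ (s ×ˢ s ×ˢ s)).filter (fun q => f q.1 = h q.2)).card =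
      DD s z g0 g1 g2 g3 g4 g5 := by
    unfold DD
    congr 1
    apply Finset.filter_congr
    intro q _
    rw [← mul_inv_eq_one]
    have : f q.1 * (h q.2)⁻¹ = (z q.1.1)⁻¹ * g0 * z q.1.2.1 * g1 * (z q.1.2.2)⁻¹ * g2 * z q.2.1 * g3 *
        (z q.2.2.1)⁻¹ * g4 * z q.2.2.2 * g5 := by
      rw [hf, hh]
      group
    rw [this]
  have e1 : (((s ×ˢ s ×ˢ s) ×ˢ (s ×ˢ s ×ˢ s)).filter (fun q => f q.1 = f q.2)).card =
      DD s z g0 g1 1 g1⁻¹ g0⁻¹ 1 := by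
    unfold DD
    have key : ∀ q : (ι × ι × ι) × (ι × ι × ι), f q.1 = f (q.2.2.2, q.2.2.1, q.2.1) ↔
        (z q.1.1)⁻¹ * g0 * z q.1.2.1 * g1 * (z q.1.2.2)⁻¹ * 1 * z q.2.1 * g1⁻¹ * (z q.2.2.1)⁻¹ * g0⁻¹ *
          z q.2.2.2 * 1 = 1 := by
      intro q
      rw [← mul_inv_eq_one]
      have : f q.1 * (f (q.2.2.2, q.2.2.1, q.2.1))⁻¹ = (z q.1.1)⁻¹ * g0 * z q.1.2.1 * g1 *
          (z q.1.2.2)⁻¹ * 1 * z q.2.1 * g1⁻¹ * (z q.2.2.1)⁻¹ * g0⁻¹ * z q.2.2.2 * 1 := by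
        rw [hf]
        group
      rw [this]
    apply Finset.card_nbij' (fun q : (ι × ι × ι) × (ι × ι × ι) => (q.1, (q.2.2.2, q.2.2.1, q.2.1)))
      (fun q : (ι × ι × ι) × (ι × ι × ι) => (q.1, (q.2.2.2, q.2.2.1, q.2.1)))
    · intro q hq
      simp only [coe_filter, Set.mem_setOf_eq, mem_product] at hq ⊢
      obtain ⟨⟨⟨h0, h1, h2⟩, h3, h4, h5⟩, h6⟩ := hq
      exact ⟨⟨⟨h0, h1, h2⟩, h5, h4, h3⟩, (key (q.1, (q.2.2.2, q.2.2.1, q.2.1))).1 h6⟩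
    · intro q hq
      simp only [coe_filter, Set.mem_setOf_eq, mem_product] at hq ⊢
      obtain ⟨⟨⟨h0, h1, h2⟩, h3, h4, h5⟩, h6⟩ := hq
      exact ⟨⟨⟨h0, h1, h2⟩, h5, h4, h3⟩, (key q).2 h6⟩
    · intro q _
      rfl
    · intro q _
      rfl
  have e2 : (((s ×ˢ s ×ˢ s) ×ˢ (s ×ˢ s ×ˢ s)).filter (fun q => h q.1 = h q.2)).card =
      DD s z 1 g3 g4 1 g4⁻¹ g3⁻¹ := by
    unfold DD
    -- the word at `((3', 3, 4), (5, 5', 4'))`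
    have key : ∀ q : (ι × ι × ι) × (ι × ι × ι), h (q.1.2.1, q.1.2.2, q.2.1) =
        h (q.1.1, q.2.2.2, q.2.2.1) ↔
        (z q.1.1)⁻¹ * 1 * z q.1.2.1 * g3 * (z q.1.2.2)⁻¹ * g4 * z q.2.1 * 1 * (z q.2.2.1)⁻¹ * g4⁻¹ *
          z q.2.2.2 * g3⁻¹ = 1 := by
      intro q
      rw [eq_comm, ← inv_mul_eq_one, ← conj_eq_one_iff (a := (z q.1.1)⁻¹ * g2⁻¹)]
      have : (z q.1.1)⁻¹ * g2⁻¹ * ((h (q.1.1, q.2.2.2, q.2.2.1))⁻¹ * h (q.1.2.1, q.1.2.2, q.2.1)) *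
          ((z q.1.1)⁻¹ * g2⁻¹)⁻¹ = ((z q.1.1)⁻¹ * 1 * z q.1.2.1 * g3 * (z q.1.2.2)⁻¹ * g4 * z q.2.1 *
            1 * (z q.2.2.1)⁻¹ * g4⁻¹ * z q.2.2.2 * g3⁻¹)⁻¹ := by
        rw [hh]
        group
      rw [this, inv_eq_one]
    apply Finset.card_nbij' (fun q : (ι × ι × ι) × (ι × ι × ι) =>
        ((q.2.1, q.1.1, q.1.2.1), (q.1.2.2, q.2.2.2, q.2.2.1)))
      (fun q : (ι × ι × ι) × (ι × ι × ι) => ((q.1.2.1, q.1.2.2, q.2.1), (q.1.1, q.2.2.2, q.2.2.1)))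
    · intro q hq
      simp only [coe_filter, Set.mem_setOf_eq, mem_product] at hq ⊢
      obtain ⟨⟨⟨h0, h1, h2⟩, h3, h4, h5⟩, h6⟩ := hq
      exact ⟨⟨⟨h3, h0, h1⟩, h2, h5, h4⟩,
        (key ((q.2.1, q.1.1, q.1.2.1), (q.1.2.2, q.2.2.2, q.2.2.1))).1 h6⟩
    · intro q hq
      simp only [coe_filter, Set.mem_setOf_eq, mem_product] at hq ⊢
      obtain ⟨⟨⟨h0, h1, h2⟩, h3, h4, h5⟩, h6⟩ := hq
      exact ⟨⟨⟨h1, h2, h3⟩, h0, h5, h4⟩, (key q).2 h6⟩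
    · intro q _
      rfl
    · intro q _
      rfl
  rw [e0, e1, e2] at h0
  exact h0

/-- MODULE CHB. -/
theorem hCHB : StCHB := by
  classical
  intro G ι _ s z g
  have hb : BddAbove (Set.range (FF s z)) := by
    refine ⟨(Fintype.piFinset fun _ : Fin 6 => s).card, ?_⟩
    rintro _ ⟨g, rfl⟩
    exact card_filter_le _ _
  have hne : (Set.range (FF s z)).Nonempty := ⟨_, g, rfl⟩
  obtain ⟨gm, hgm⟩ := Nat.sSup_mem hne hb
  obtain ⟨M, hM⟩ : ∃ M : ℕ, M = FF s z gm := ⟨_, rfl⟩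
  have hle : ∀ g : Fin 6 → G, FF s z g ≤ M := by
    intro g
    rw [hM, hgm]
    exact le_csSup hb ⟨g, rfl⟩
  have hleD : ∀ a b c d e f : G, DD s z a b c d e f ≤ M := by
    intro a b c d e f
    have h1 := hle ![a, b, c, d, e, f]
    rw [FF_eq] at h1
    exact h1
  refine (hle g).trans ?_
  rcases Nat.eq_zero_or_pos M with h0 | h0
  · rw [h0]
    exact Nat.zero_le _
  -- if the product of two values is at least the square of the maximum, both are the maximum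
  have two : ∀ a b : ℕ, a ≤ M → b ≤ M → M ^ 2 ≤ a * b → a = M ∧ b = M := by
    intro a b ha hb' hab
    constructor
    · by_contra hc
      have h1 : a < M := lt_of_le_of_ne ha hc
      have h2 : a * b ≤ a * M := Nat.mul_le_mul_left _ hb'
      have h3 : a * M < M * M := Nat.mul_lt_mul_of_pos_right h1 h0
      rw [pow_two] at hab
      omega
    · by_contra hc
      have h1 : b < M := lt_of_le_of_ne hb' hc
      have h2 : a * b ≤ M * b := Nat.mul_le_mul_right _ ha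
      have h3 : M * b < M * M := Nat.mul_lt_mul_of_pos_left h1 h0
      rw [pow_two] at hab
      omega
  -- step 1
  obtain ⟨x, y, hxy⟩ : ∃ x y : G, DD s z x y 1 y⁻¹ x⁻¹ 1 = M := by
    have h1 := main s z (gm 0) (gm 1) (gm 2) (gm 3) (gm 4) (gm 5)
    rw [← FF_eq, ← hM] at h1
    exact ⟨_, _, (two _ _ (hleD _ _ _ _ _ _) (hleD _ _ _ _ _ _) h1).1⟩
  -- step 2
  obtain ⟨u, hu⟩ : ∃ u : G, DD s z u 1 1 1 u⁻¹ 1 = M := by
    have h1 := main s z x⁻¹ 1 x y 1 y⁻¹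
    have h2 : DD s z x⁻¹ 1 x y 1 y⁻¹ = M := by
      rw [shift, hxy]
    rw [h2] at h1
    have h3 := (two _ _ (hleD _ _ _ _ _ _) (hleD _ _ _ _ _ _) h1).1
    refine ⟨x⁻¹, ?_⟩
    rw [inv_one] at h3
    exact h3
  -- step 3
  have h1 := main s z 1 1 u⁻¹ 1 u 1
  have h2 : DD s z 1 1 u⁻¹ 1 u 1 = M := by
    rw [← shift, hu]
  rw [h2] at h1
  have h3 := (two _ _ (hleD _ _ _ _ _ _) (hleD _ _ _ _ _ _) h1).1
  rw [inv_one] at h3
  rw [FF_eq]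
  exact h3.ge

end Pool.Agent.Helper1.HY
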